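import Pool.Agent.Lib_helper87.HS.Shift

/-!
The two counting lemmas of the Kierstead-Kostochka argument, and the class count.
-/

open Classical Relation

namespace Pool.Agent.Lib_helper87.HS

variable {V ι : Type*}

/-- If `x` has a neighbour in each class of `P`, it has at least `|P|` neighbours there. -/
theorem card_le_nbrs {r : V → V → Prop} {U : Finset V} {f : V → ι} {x : V} (P : Finset ι)
    (h : ∀ c ∈ P, ∃ v ∈ U, f v = c ∧ r x v) :
    P.card ≤ (U.filter (fun v => f v ∈ P ∧ r x v)).card := by
  apply Finset.card_le_card_of_surjOn f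
  intro c hc
  obtain ⟨v, hv, hvc, hxv⟩ := h c hc
  exact ⟨v, by
    simp only [Finset.coe_filter, Set.mem_ofPred_eq]
    exact ⟨hv, by rw [hvc]; exact hc, hxv⟩, hvc⟩

/-- The number of vertices with colour in `P`. -/
theorem card_colours {U : Finset V} {f : V → ι} (P : Finset ι) :
    (U.filter (fun v => f v ∈ P)).card = ∑ c ∈ P, (cls U f c).card := by
  rw [Finset.card_eq_sum_card_fiberwise (f := f) (t := P)]
  · apply Finset.sum_congr rfl
    intro c hc
    congr 1
    ext v
    simp only [Finset.mem_filter, mem_cls]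
    constructor
    · rintro ⟨⟨h1, _⟩, h3⟩; exact ⟨h1, h3⟩
    · rintro ⟨h1, h3⟩; exact ⟨⟨h1, by rw [h3]; exact hc⟩, h3⟩
  · intro v hv
    simp only [Finset.coe_filter, Set.mem_ofPred_eq] at hv
    exact hv.2

/-- First counting lemma. -/
theorem count22 {r : V → V → Prop} (hsymm : ∀ x y, r x y → r y x) (B W : Finset V) (s β t : ℕ)
    (hB : β * s + 1 ≤ B.card) (hW : W.card ≤ s) (hnb : ∀ y ∈ B, ∃ z ∈ W, r y z)
    (hS : ∀ z ∈ W, (∃ y ∈ B, W.filter (fun v => r y v) = {z}) →
      (B.filter (fun v => r z v)).card ≤ β)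
    (hD : ∀ z ∈ W, (B.filter (fun v => r z v)).card ≤ β + t) : β + 1 ≤ t := by
  by_contra hcon
  have htβ : t ≤ β := by omega
  set w : V → ℕ := fun z => if (∃ y ∈ B, W.filter (fun v => r y v) = {z}) then 2 else 1 with hw
  have h1 : ∑ y ∈ B, 2 ≤ ∑ y ∈ B, ∑ z ∈ W, (if r y z then w z else 0) := by
    apply Finset.sum_le_sum
    intro y hy
    obtain ⟨z, hz, hyz⟩ := hnb y hy
    by_cases hsolo : W.filter (fun v => r y v) = {z}
    · have : w z = 2 := by
        simp only [hw]
        rw [if_pos ⟨y, hy, hsolo⟩]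
      calc 2 = (if r y z then w z else 0) := by rw [if_pos hyz, this]
        _ ≤ _ := Finset.single_le_sum (f := fun z => if r y z then w z else 0)
          (fun _ _ => Nat.zero_le _) hz
    · have h2 : 2 ≤ (W.filter (fun v => r y v)).card := by
        by_contra h3
        have h4 : (W.filter (fun v => r y v)).card ≤ 1 := by omega
        rw [Finset.card_le_one] at h4
        apply hsolo
        ext x
        simp only [Finset.mem_singleton]
        constructor
        · intro hx
          exact h4 x hx z (by simp [hz, hyz])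
        · rintro rfl
          simp [hz, hyz]
      calc 2 ≤ (W.filter (fun v => r y v)).card := h2
        _ = ∑ z ∈ W, (if r y z then 1 else 0) := by rw [Finset.card_filter]
        _ ≤ _ := by
          apply Finset.sum_le_sum
          intro z _
          split_ifs
          · simp only [hw]
            split_ifs <;> omega
          · exact le_refl _
  have h2 : ∑ y ∈ B, ∑ z ∈ W, (if r y z then w z else 0) ≤ ∑ z ∈ W, 2 * β := by
    rw [Finset.sum_comm]
    apply Finset.sum_le_sum
    intro z hz
    have h3 : ∑ y ∈ B, (if r y z then w z else 0) = (B.filter (fun v => r z v)).card * w z := by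
      rw [← Finset.sum_filter, Finset.sum_const, smul_eq_mul]
      congr 2
      ext y
      simp only [Finset.mem_filter]
      constructor
      · rintro ⟨a, b⟩; exact ⟨a, hsymm _ _ b⟩
      · rintro ⟨a, b⟩; exact ⟨a, hsymm _ _ b⟩
    rw [h3]
    simp only [hw]
    split_ifs with hsolo
    · have := hS z hz hsolo
      omega
    · have := hD z hz
      omega
  simp only [Finset.sum_const, smul_eq_mul] at h1 h2
  have h3 : W.card * (2 * β) ≤ s * (2 * β) := Nat.mul_le_mul_right _ hW
  nlinarith

/-- Second counting lemma. -/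
theorem count24 (B Av : Finset V) (S : V → V → Prop) (m : V → ℕ) (s β t : ℕ) (htβ : β ≤ t)
    (ht : 1 ≤ t) (hB : β * s + 1 ≤ B.card) (hAv : Av.card ≤ t * s)
    (hm : ∀ y ∈ B, 1 ≤ m y ∧ m y ≤ β)
    (hSy : ∀ y ∈ B, t + m y ≤ β + (Av.filter (fun z => S z y)).card)
    (hSz : ∀ y ∈ B, ∀ z ∈ Av, S z y → (B.filter (fun y => S z y)).card ≤ m y) : False := by
  have hβ : (0 : ℚ) ≤ β := Nat.cast_nonneg _
  have h1 : ∑ y ∈ B, (t : ℚ) ≤
      ∑ y ∈ B, ∑ z ∈ Av, (if S z y then (β : ℚ) / (B.filter (fun y => S z y)).card else 0) := by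
    apply Finset.sum_le_sum
    intro y hy
    have hmy := hm y hy
    have hmpos : (0 : ℚ) < m y := by exact_mod_cast hmy.1
    have h2 : ∑ z ∈ Av, (if S z y then (β : ℚ) / m y else 0) ≤
        ∑ z ∈ Av, (if S z y then (β : ℚ) / (B.filter (fun y => S z y)).card else 0) := by
      apply Finset.sum_le_sum
      intro z hz
      split_ifs with hzy
      · apply div_le_div_of_nonneg_left hβ
        · have : 0 < (B.filter (fun y => S z y)).card :=
            Finset.card_pos.2 ⟨y, by simp [hy, hzy]⟩
          exact_mod_cast this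
        · exact_mod_cast hSz y hy z hz hzy
      · exact le_refl _
    refine le_trans ?_ h2
    rw [← Finset.sum_filter, Finset.sum_const, nsmul_eq_mul, ← mul_div_assoc,
      le_div_iff₀ hmpos]
    have h3 : (t : ℚ) + m y ≤ β + (Av.filter (fun z => S z y)).card := by
      exact_mod_cast hSy y hy
    have h4 : (m y : ℚ) ≤ β := by exact_mod_cast hmy.2
    have h5 : (β : ℚ) ≤ t := by exact_mod_cast htβ
    nlinarith
  have h2 : ∑ y ∈ B, ∑ z ∈ Av,
      (if S z y then (β : ℚ) / (B.filter (fun y => S z y)).card else 0) ≤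
      ∑ z ∈ Av, (β : ℚ) := by
    rw [Finset.sum_comm]
    apply Finset.sum_le_sum
    intro z hz
    rw [← Finset.sum_filter, Finset.sum_const, nsmul_eq_mul]
    by_cases h0 : (B.filter (fun y => S z y)).card = 0
    · rw [h0]; simp
    · have : ((B.filter (fun y => S z y)).card : ℚ) ≠ 0 := by exact_mod_cast h0
      rw [mul_div_assoc', mul_comm, mul_div_assoc, div_self this, mul_one]
  simp only [Finset.sum_const, nsmul_eq_mul] at h1 h2
  have h3 : (B.card : ℚ) * t ≤ Av.card * β := h1.trans h2
  have h4 : B.card * t ≤ Av.card * β := by exact_mod_cast h3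
  have h5 : Av.card * β ≤ (t * s) * β := Nat.mul_le_mul_right _ hAv
  have h6 : (β * s + 1) * t ≤ B.card * t := Nat.mul_le_mul_right _ hB
  nlinarith

end Pool.Agent.Lib_helper87.HS
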