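import Mathlib

/-!
Reachability inside a finite set of nodes of a digraph: the few facts used by the
Kierstead-Kostochka argument.
-/

open Classical Relation

namespace Pool.Agent.Lib_helper87.HS

variable {ι : Type*}

/-- The relation `m` restricted to the set `T`. -/
def RT (m : ι → ι → Prop) (T : Finset ι) (a b : ι) : Prop := a ∈ T ∧ b ∈ T ∧ m a b

/-- Reachability inside `T`. -/
def Rch (m : ι → ι → Prop) (T : Finset ι) (a b : ι) : Prop := ReflTransGen (RT m T) a b

theorem Rch.refl {m : ι → ι → Prop} {T : Finset ι} {a : ι} : Rch m T a a := ReflTransGen.refl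

theorem Rch.head {m : ι → ι → Prop} {T : Finset ι} {a b c : ι} (h : RT m T a b)
    (h' : Rch m T b c) : Rch m T a c := ReflTransGen.head h h'

theorem Rch.mono {m : ι → ι → Prop} {T T' : Finset ι} (hT : T ⊆ T') {a b : ι}
    (h : Rch m T a b) : Rch m T' a b := by
  unfold Rch at *
  have hm : ∀ x y, RT m T x y → RT m T' x y := fun x y hxy => ⟨hT hxy.1, hT hxy.2.1, hxy.2.2⟩
  induction h with
  | refl => exact ReflTransGen.refl
  | tail _ h2 ih => exact ReflTransGen.tail ih (hm _ _ h2)

/-- Starting point of a nontrivial walk lies in `T`. -/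
theorem Rch.mem_left {m : ι → ι → Prop} {T : Finset ι} {a b : ι} (h : Rch m T a b)
    (hab : a ≠ b) : a ∈ T := by
  unfold Rch at h
  rcases ReflTransGen.cases_head h with h | ⟨c, hc, _⟩
  · exact absurd h hab
  · exact hc.1

theorem Rch.mem_right {m : ι → ι → Prop} {T : Finset ι} {a b : ι} (h : Rch m T a b)
    (hab : a ≠ b) : b ∈ T := by
  unfold Rch at h
  rcases ReflTransGen.cases_tail h with h | ⟨c, _, hc⟩
  · exact absurd h.symm hab
  · exact hc.2.1

/-- A walk to `i` never meets a node that does not reach `i`. -/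
theorem Rch.avoid {m : ι → ι → Prop} {T : Finset ι} {x w i : ι} (h : Rch m T x i)
    (hw : ¬ Rch m T w i) : Rch m (T.erase w) x i := by
  unfold Rch at h
  induction h using ReflTransGen.head_induction_on with
  | refl => exact Rch.refl
  | @head a c hac hci ih =>
    have hcw : c ≠ w := by
      rintro rfl
      exact hw hci
    have haw : a ≠ w := by
      rintro rfl
      exact hw (ReflTransGen.head hac hci)
    exact Rch.head ⟨Finset.mem_erase.2 ⟨haw, hac.1⟩, Finset.mem_erase.2 ⟨hcw, hac.2.1⟩,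
      hac.2.2⟩ ih

theorem last_visit_aux {m : ι → ι → Prop} {T : Finset ι} {x i : ι} (h : Rch m T x i) (a : ι)
    (ha : a ≠ i) : Rch m (T.erase a) x i ∨ ∃ k, RT m T a k ∧ k ≠ a ∧ Rch m (T.erase a) k i := by
  unfold Rch at h
  induction h using ReflTransGen.head_induction_on with
  | refl => exact Or.inl Rch.refl
  | @head b c hbc hci ih =>
    rcases ih with ih | ih
    · have hca : c ≠ a := by
        rintro rfl
        have := ih.mem_left ha
        simp at this
      by_cases hba : b = a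
      · subst hba
        exact Or.inr ⟨c, hbc, hca, ih⟩
      · exact Or.inl (Rch.head ⟨Finset.mem_erase.2 ⟨hba, hbc.1⟩,
          Finset.mem_erase.2 ⟨hca, hbc.2.1⟩, hbc.2.2⟩ ih)
    · exact Or.inr ih

/-- The first step of a simple walk from `a` to `i`. -/
theorem last_visit {m : ι → ι → Prop} {T : Finset ι} {a i : ι} (h : Rch m T a i)
    (ha : a ≠ i) : ∃ k, RT m T a k ∧ k ≠ a ∧ Rch m (T.erase a) k i := by
  rcases last_visit_aux h a ha with h' | h'
  · have := h'.mem_left ha
    simp at this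
  · exact h'

/-- The nodes of `T` that reach `i`. -/
noncomputable def acc (m : ι → ι → Prop) (T : Finset ι) (i : ι) : Finset ι :=
  T.filter (fun c => Rch m T c i)

theorem mem_acc {m : ι → ι → Prop} {T : Finset ι} {i c : ι} :
    c ∈ acc m T i ↔ c ∈ T ∧ Rch m T c i := by
  simp [acc]

theorem acc_reach {m : ι → ι → Prop} {T : Finset ι} {i c : ι} (h : Rch m T c i) :
    Rch m (acc m T i) c i := by
  unfold Rch at h
  induction h using ReflTransGen.head_induction_on with
  | refl => exact Rch.refl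
  | @head b c hbc hci ih =>
    exact Rch.head ⟨mem_acc.2 ⟨hbc.1, ReflTransGen.head hbc hci⟩, mem_acc.2 ⟨hbc.2.1, hci⟩,
      hbc.2.2⟩ ih

/-- Choice of `u` in `A` cutting off a nonempty set `A'` of minimal size; every node of `A'` is
terminal. -/
theorem exists_terminal (m : ι → ι → Prop) (A : Finset ι) (i : ι) (hi : i ∈ A)
    (hA : ∀ c ∈ A, Rch m A c i) (h2 : 2 ≤ A.card) :
    ∃ u ∈ A, ∃ A' : Finset ι, A' ⊆ A.erase u ∧ A'.Nonempty ∧ i ∉ A' ∧
      (∀ W ∈ A', ∀ X ∈ A, X ≠ W → Rch m (A.erase W) X i) ∧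
      (∀ W ∈ A', ∀ X ∈ A, X ∉ A' → X ≠ u → ¬ m W X) := by
  set Tm : ι → Finset ι := fun u => (A.erase u).filter (fun W => ¬ Rch m (A.erase u) W i)
    with hTm
  have hTi : (Tm i).Nonempty := by
    obtain ⟨W, hW, hWi⟩ := Finset.exists_mem_ne (by omega : 1 < A.card) i
    refine ⟨W, ?_⟩
    simp only [hTm, Finset.mem_filter, Finset.mem_erase]
    refine ⟨⟨hWi, hW⟩, ?_⟩
    intro h
    have := h.mem_right hWi
    simp at this
  obtain ⟨u, hu, humin⟩ := Finset.exists_min_image (A.filter (fun u => (Tm u).Nonempty))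
    (fun u => (Tm u).card) ⟨i, by simp [hi, hTi]⟩
  rw [Finset.mem_filter] at hu
  have hmemT : ∀ u W, W ∈ Tm u ↔ (W ≠ u ∧ W ∈ A) ∧ ¬ Rch m (A.erase u) W i := by
    intro u W
    simp [hTm]
  refine ⟨u, hu.1, Tm u, Finset.filter_subset _ _, hu.2, ?_, ?_, ?_⟩
  · intro h
    exact ((hmemT u i).1 h).2 Rch.refl
  · intro W hW X hX hXW
    by_contra hcon
    have hWT := (hmemT u W).1 hW
    have hne : (Tm W).Nonempty := ⟨X, (hmemT W X).2 ⟨⟨hXW, hX⟩, hcon⟩⟩
    have hle : (Tm u).card ≤ (Tm W).card :=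
      humin W (by rw [Finset.mem_filter]; exact ⟨hWT.1.2, hne⟩)
    have hsub : Tm W ⊆ (Tm u).erase W := by
      intro Y hY
      have hY' := (hmemT W Y).1 hY
      rw [Finset.mem_erase]
      refine ⟨hY'.1.1, (hmemT u Y).2 ⟨⟨?_, hY'.1.2⟩, ?_⟩⟩
      · rintro rfl
        -- `u` itself reaches `i` avoiding `W`
        apply hY'.2
        by_cases hui : Y = i
        · subst hui; exact Rch.refl
        · obtain ⟨k, hk1, hk2, hk3⟩ := last_visit (hA Y hY'.1.2) hui
          have h4 := hk3.avoid hWT.2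
          have hkW : k ≠ W := by
            rintro rfl
            exact hWT.2 hk3
          refine Rch.head ⟨Finset.mem_erase.2 ⟨hY'.1.1, hk1.1⟩,
            Finset.mem_erase.2 ⟨hkW, hk1.2.1⟩, hk1.2.2⟩ (h4.mono ?_)
          intro z hz
          simp only [Finset.mem_erase] at hz ⊢
          exact ⟨hz.1, hz.2.2⟩
      · intro hr
        apply hY'.2
        refine (hr.avoid hWT.2).mono ?_
        intro z hz
        simp only [Finset.mem_erase] at hz ⊢
        exact ⟨hz.1, hz.2.2⟩
    have := Finset.card_le_card hsub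
    rw [Finset.card_erase_of_mem hW] at this
    have hpos : 0 < (Tm u).card := Finset.card_pos.2 hu.2
    omega
  · intro W hW X hX hXA' hXu hm
    have hWT := (hmemT u W).1 hW
    have hXr : Rch m (A.erase u) X i := by
      by_contra hcon
      exact hXA' ((hmemT u X).2 ⟨⟨hXu, hX⟩, hcon⟩)
    exact hWT.2 (Rch.head ⟨Finset.mem_erase.2 hWT.1, Finset.mem_erase.2 ⟨hXu, hX⟩, hm⟩ hXr)

end Pool.Agent.Lib_helper87.HS
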