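import Pool.Agent.Lib_helper87.HS.Stuck

/-!
The induction of the Kierstead-Kostochka argument, with prescribed class sizes.
-/

open Classical Relation

namespace Pool.Agent.Lib_helper87.HS

variable {V ι : Type*}

theorem Rch.of_imp {m m' : ι → ι → Prop} {T T' : Finset ι}
    (hm : ∀ a b, RT m T a b → RT m' T' a b) {x i : ι} (h : Rch m T x i) : Rch m' T' x i := by
  unfold Rch at *
  induction h with
  | refl => exact ReflTransGen.refl
  | tail _ h2 ih => exact ReflTransGen.tail ih (hm _ _ h2)

/-- The number of adjacent (ordered) pairs inside `U`. -/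
noncomputable def E (r : V → V → Prop) (U : Finset V) : ℕ :=
  ((U ×ˢ U).filter (fun p => r p.1 p.2)).card

theorem Proper.insert {r : V → V → Prop} (hsymm : ∀ x y, r x y → r y x)
    (hirr : ∀ x, ¬ r x x) {U : Finset V} {f : V → ι} (hf : Proper r U f) {w : V} {b : ι}
    (hb : Mvb r U f w b) : Proper r (insert w U) (Function.update f w b) := by
  intro u hu v hv huv
  by_cases h1 : u = w
  · subst h1
    have h2 : v ≠ u := by
      rintro rfl
      exact hirr _ huv
    rw [Function.update_self, Function.update_of_ne h2]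
    intro h
    exact hb v (Finset.mem_of_mem_insert_of_ne hv h2) h.symm huv
  · by_cases h2 : v = w
    · subst h2
      rw [Function.update_self, Function.update_of_ne h1]
      intro h
      exact hb u (Finset.mem_of_mem_insert_of_ne hu h1) h (hsymm _ _ huv)
    · rw [Function.update_of_ne h1, Function.update_of_ne h2]
      exact hf u (Finset.mem_of_mem_insert_of_ne hu h1) v (Finset.mem_of_mem_insert_of_ne hv h2)
        huv

theorem card_cls_insert {U : Finset V} {f : V → ι} {w : V} (hw : w ∉ U) (b c : ι) :
    (cls (insert w U) (Function.update f w b) c).card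
      = (cls U f c).card + (if c = b then 1 else 0) := by
  by_cases hcb : c = b
  · subst hcb
    have h1 : cls (insert w U) (Function.update f w c) c = insert w (cls U f c) := by
      ext v
      simp only [mem_cls, Finset.mem_insert]
      by_cases hv : v = w
      · subst hv; simp
      · simp [hv]
    rw [h1, Finset.card_insert_of_notMem (by rw [mem_cls]; exact fun h => hw h.1), if_pos rfl]
  · have h1 : cls (insert w U) (Function.update f w b) c = cls U f c := by
      ext v
      simp only [mem_cls, Finset.mem_insert]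
      by_cases hv : v = w
      · subst hv; simp [Ne.symm hcb, hw]
      · simp [hv]
    rw [h1, if_neg hcb, add_zero]

/-- Gluing two proper colourings with disjoint sets of colours. -/
theorem glue {r : V → V → Prop} {U1 U2 : Finset V} (hdisj : Disjoint U1 U2) {A : Finset ι}
    {p g : V → ι} (hp : ∀ v ∈ U1, p v ∈ A) (hg : ∀ v ∈ U2, g v ∉ A) (hpp : Proper r U1 p)
    (hgp : Proper r U2 g) :
    ∃ h : V → ι, (∀ v ∈ U1, h v = p v) ∧ (∀ v ∈ U2, h v = g v) ∧ Proper r (U1 ∪ U2) h ∧
      (∀ c ∈ A, cls (U1 ∪ U2) h c = cls U1 p c) ∧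
      (∀ c, c ∉ A → cls (U1 ∪ U2) h c = cls U2 g c) := by
  have hnot : ∀ v ∈ U2, v ∉ U1 := fun v hv hv' => Finset.disjoint_left.1 hdisj hv' hv
  refine ⟨fun v => if v ∈ U1 then p v else g v, ?_, ?_, ?_, ?_, ?_⟩
  · intro v hv; simp [hv]
  · intro v hv; simp [hnot v hv]
  · intro u hu v hv huv
    rw [Finset.mem_union] at hu hv
    simp only
    by_cases h1 : u ∈ U1
    · by_cases h2 : v ∈ U1
      · rw [if_pos h1, if_pos h2]
        exact hpp u h1 v h2 huv
      · rw [if_pos h1, if_neg h2]
        intro h
        exact hg v (hv.resolve_left h2) (h ▸ hp u h1)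
    · by_cases h2 : v ∈ U1
      · rw [if_neg h1, if_pos h2]
        intro h
        exact hg u (hu.resolve_left h1) (h ▸ hp v h2)
      · rw [if_neg h1, if_neg h2]
        exact hgp u (hu.resolve_left h1) v (hv.resolve_left h2) huv
  · intro c hc
    ext v
    simp only [mem_cls, Finset.mem_union]
    constructor
    · rintro ⟨h1, h2⟩
      by_cases h3 : v ∈ U1
      · rw [if_pos h3] at h2
        exact ⟨h3, h2⟩
      · rw [if_neg h3] at h2
        exact absurd (h2 ▸ hc) (hg v (h1.resolve_left h3))
    · rintro ⟨h1, h2⟩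
      rw [if_pos h1]
      exact ⟨Or.inl h1, h2⟩
  · intro c hc
    ext v
    simp only [mem_cls, Finset.mem_union]
    constructor
    · rintro ⟨h1, h2⟩
      by_cases h3 : v ∈ U1
      · rw [if_pos h3] at h2
        exact absurd (h2 ▸ hp v h3) hc
      · rw [if_neg h3] at h2
        exact ⟨h1.resolve_left h3, h2⟩
    · rintro ⟨h1, h2⟩
      rw [if_neg (hnot v h1)]
      exact ⟨Or.inr h1, h2⟩

/-- The statement proved by induction. -/
def Good (r : V → V → Prop) (U : Finset V) (C : Finset ι) (n : ι → ℕ) : Prop :=
  ∃ f : V → ι, (∀ u ∈ U, f u ∈ C) ∧ Proper r U f ∧ ∀ c ∈ C, (cls U f c).card = n c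

/-- The hypotheses of the induction. -/
def Hyp (r : V → V → Prop) (U : Finset V) (C : Finset ι) (n : ι → ℕ) (D s : ℕ) : Prop :=
  (∀ u ∈ U, (U.filter (fun v => r u v)).card ≤ D) ∧ (∀ c ∈ C, n c ≤ s) ∧
    ∑ c ∈ C, n c = U.card ∧ (D + 1) * s ≤ U.card

theorem Hyp.card_le {r : V → V → Prop} {U : Finset V} {C : Finset ι} {n : ι → ℕ} {D s : ℕ}
    (h : Hyp r U C n D s) (hU : U.Nonempty) : D + 1 ≤ C.card := by
  obtain ⟨-, hn, hsum, hDs⟩ := h
  have h1 : ∑ c ∈ C, n c ≤ C.card * s := by
    have := Finset.sum_le_card_nsmul C n s hn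
    simpa using this
  have hpos : 0 < U.card := Finset.card_pos.2 hU
  have hs : 0 < s := by
    rcases Nat.eq_zero_or_pos s with h0 | h0
    · rw [h0] at h1
      omega
    · exact h0
  have h2 : (D + 1) * s ≤ C.card * s := by omega
  exact Nat.le_of_mul_le_mul_right h2 hs

theorem nearly_good {r : V → V → Prop} (hsymm : ∀ x y, r x y → r y x)
    (hirr : ∀ x, ¬ r x x) {U : Finset V} {C : Finset ι} {D s : ℕ} {n : ι → ℕ}
    (hyp : Hyp r U C n D s)
    (IH : ∀ (U' : Finset V) (C' : Finset ι) (D' : ℕ), E r U' < E r U →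
      Hyp r U' C' n D' s → Good r U' C' n) :
    ∀ (N : ℕ) (f : V → ι) (i j : ι), i ∈ C → j ∈ C → (∀ u ∈ U, f u ∈ C) → Proper r U f →
      (∀ c ∈ C, (cls U f c).card + (if c = i then 1 else 0)
        = n c + (if c = j then 1 else 0)) →
      C.card - (acc (mv r U f) C i).card = N → Good r U C n := by
  intro N
  induction N using Nat.strong_induction_on with
  | _ N ihN =>
  intro f i j hi hj hfC hf hcard hN
  by_cases hjA : j ∈ acc (mv r U f) C i
  · -- shift from `j` to `i`
    obtain ⟨f', hf', h1, h2, _, h4⟩ := shift hsymm hirr hf C.card C rfl j i hj hi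
      (mem_acc.1 hjA).2
    refine ⟨f', fun u hu => h2 u (hfC u hu), hf', fun c hc => ?_⟩
    have e1 := hcard c hc
    have e2 := h4 c
    omega
  obtain ⟨hdeg, hn, hsum, hDs⟩ := id hyp
  obtain ⟨β, hβ, hβ1, hdB, hBcard, W, hWA, hWi, hterm, z, hzU, hzW, hz⟩ :=
    stuck hsymm hdeg hn hDs hi hj hfC hcard hjA
  set A := acc (mv r U f) C i with hA
  set B := outs U f A with hB
  have hAC : A ⊆ C := Finset.filter_subset _ _
  have hiA : i ∈ A := mem_acc.2 ⟨hi, Rch.refl⟩
  have hzA : z ∈ ins U f A := mem_ins.2 ⟨hzU, by rw [hzW]; exact hWA⟩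
  have hzB : z ∉ B := by
    intro h
    exact (mem_outs.1 h).2 (by rw [hzW]; exact hWA)
  have hBU : B ⊆ U := Finset.filter_subset _ _
  have hUne : U.Nonempty := ⟨z, hzU⟩
  have hCcard := hyp.card_le hUne
  have hinsA : (ins U f A).card + 1 = ∑ c ∈ A, n c := by
    unfold ins
    rw [card_colours]
    have h1 : ∑ c ∈ A, ((cls U f c).card + (if c = i then 1 else 0))
        = ∑ c ∈ A, (n c + (if c = j then 1 else 0)) :=
      Finset.sum_congr rfl (fun c hc => hcard c (hAC hc))
    rw [Finset.sum_add_distrib, Finset.sum_add_distrib, Finset.sum_ite_eq', Finset.sum_ite_eq',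
      if_pos hiA, if_neg hjA] at h1
    omega
  have hUsplit := card_ins_add_outs U f A
  rw [← hB] at hUsplit
  have hsumB : ∑ c ∈ C \ A, n c + 1 = B.card := by
    have := Finset.sum_sdiff (f := n) hAC
    omega
  have hCA : β ≤ (C \ A).card := by
    rw [Finset.card_sdiff_of_subset hAC]
    omega
  -- the colouring of `B` minus a vertex
  have hg : ∀ y₁ ∈ B, Solo r U f W z y₁ → ∃ g : V → ι, (∀ u ∈ B.erase y₁, g u ∈ C \ A) ∧
      Proper r (B.erase y₁) g ∧ ∀ c ∈ C \ A, (cls (B.erase y₁) g c).card = n c := by
    intro y₁ hy₁ hsolo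
    apply IH (B.erase y₁) (C \ A) (β - 1)
    · unfold E
      apply Finset.card_lt_card
      rw [Finset.ssubset_iff_of_subset]
      · refine ⟨(y₁, z), ?_, ?_⟩
        · rw [Finset.mem_filter, Finset.mem_product]
          refine ⟨⟨hBU hy₁, hzU⟩, ?_⟩
          have : z ∈ (cls U f W).filter (fun v => r y₁ v) := by
            unfold Solo at hsolo
            rw [hsolo]; simp
          exact (Finset.mem_filter.1 this).2
        · rw [Finset.mem_filter, Finset.mem_product]
          rintro ⟨⟨h1, _⟩, _⟩
          simp at h1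
      · intro q hq
        rw [Finset.mem_filter, Finset.mem_product] at hq ⊢
        exact ⟨⟨hBU (Finset.mem_of_mem_erase hq.1.1), hBU (Finset.mem_of_mem_erase hq.1.2)⟩,
          hq.2⟩
    · refine ⟨?_, ?_, ?_, ?_⟩
      · intro u hu
        have h1 := hdB u (Finset.mem_of_mem_erase hu)
        have h2 : ((B.erase y₁).filter (fun v => r u v)).card
            ≤ (B.filter (fun v => r u v)).card := by
          apply Finset.card_le_card
          exact Finset.filter_subset_filter _ (Finset.erase_subset _ _)
        omega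
      · intro c hc
        exact hn c (Finset.mem_sdiff.1 hc).1
      · rw [Finset.card_erase_of_mem hy₁]
        omega
      · rw [Finset.card_erase_of_mem hy₁]
        have : β - 1 + 1 = β := by omega
        rw [this]
        omega
  -- classes inside `A`
  have hclsA : ∀ (q : V → ι), (∀ v ∈ B, q v = f v) → ∀ c ∈ A,
      cls (ins U f A) q c = cls U q c := by
    intro q hq c hc
    ext v
    simp only [mem_cls, mem_ins]
    constructor
    · rintro ⟨h1, h2⟩; exact ⟨h1.1, h2⟩
    · rintro ⟨h1, h2⟩
      refine ⟨⟨h1, ?_⟩, h2⟩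
      by_contra h3
      have h4 : v ∈ B := mem_outs.2 ⟨h1, h3⟩
      rw [hq v h4] at h2
      exact h3 (h2 ▸ hc)
  have hunion : ins U f A ∪ B = U := by
    ext v
    rw [Finset.mem_union, hB, mem_ins, mem_outs]
    tauto
  have hdisj : Disjoint (ins U f A) B := by
    rw [Finset.disjoint_left]
    intro v h1 h2
    exact (mem_outs.1 h2).2 (mem_ins.1 h1).2
  rcases hz with ⟨X, hXA, hXW, hmv, y₁, hy₁, hsolo⟩ | ⟨hnmv, hdz, y₁, hy₁, y₂, hy₂, hne, hr, hs1, hs2⟩
  · -- Case 1
    obtain ⟨g, hgC, hgp, hgn⟩ := hg y₁ hy₁ hsolo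
    obtain ⟨f', hf', h1, h2, h3, h4⟩ := shift hsymm hirr hf (A.erase W).card (A.erase W) rfl X i
      (Finset.mem_erase.2 ⟨hXW, hXA⟩) (Finset.mem_erase.2 ⟨Ne.symm hWi, hiA⟩)
      (hterm X hXA hXW)
    have hz' : f' z = W := by
      rw [h1 z (by rw [hzW]; simp)]
      exact hzW
    have hb1 : Mvb r U f' z X := fun v hv hvX => hmv v hv (h3 v hvX)
    set f₁ := Function.update f' z X with hf₁
    have hf₁p : Proper r U f₁ := hf'.update hsymm hirr hb1
    have hf₁B : ∀ v ∈ B, f₁ v = f v := by
      intro v hv
      have hvz : v ≠ z := by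
        rintro rfl
        exact hzB hv
      rw [hf₁, Function.update_of_ne hvz]
      exact h1 v (fun h => (mem_outs.1 hv).2 (Finset.mem_of_mem_erase h))
    have hf₁A : ∀ v ∈ ins U f A, f₁ v ∈ A := by
      intro v hv
      by_cases hvz : v = z
      · rw [hf₁, hvz, Function.update_self]
        exact hXA
      · rw [hf₁, Function.update_of_ne hvz]
        by_cases hvW : f v = W
        · rw [h1 v (by rw [hvW]; simp), hvW]
          exact hWA
        · exact Finset.mem_of_mem_erase
            (h2 v (Finset.mem_erase.2 ⟨hvW, (mem_ins.1 hv).2⟩))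
    have hf₁W : ∀ v ∈ U, f₁ v = W → f v = W ∧ v ≠ z := by
      intro v hv hvW
      by_cases hvz : v = z
      · rw [hf₁, hvz, Function.update_self] at hvW
        exact absurd hvW hXW
      · refine ⟨?_, hvz⟩
        rw [hf₁, Function.update_of_ne hvz] at hvW
        by_contra hne
        by_cases hvA : f v ∈ A
        · have := h2 v (Finset.mem_erase.2 ⟨hne, hvA⟩)
          rw [hvW] at this
          simp at this
        · rw [h1 v (fun h => hvA (Finset.mem_of_mem_erase h))] at hvW
          exact hne hvW
    have hy₁A : y₁ ∉ ins U f A := fun h => (Finset.disjoint_left.1 hdisj h) hy₁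
    have hpp : Proper r (insert y₁ (ins U f A)) (Function.update f₁ y₁ W) := by
      apply Proper.insert hsymm hirr
      · intro u hu v hv
        exact hf₁p u (mem_ins.1 hu).1 v (mem_ins.1 hv).1
      · intro v hv hvW hrv
        have h5 := hf₁W v (mem_ins.1 hv).1 hvW
        have h6 : v ∈ (cls U f W).filter (fun v => r y₁ v) := by
          rw [Finset.mem_filter, mem_cls]
          exact ⟨⟨(mem_ins.1 hv).1, h5.1⟩, hrv⟩
        unfold Solo at hsolo
        rw [hsolo, Finset.mem_singleton] at h6
        exact h5.2 h6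
    obtain ⟨h, hh1, hh2, hh3, hh4, hh5⟩ := glue (A := A) (U1 := insert y₁ (ins U f A))
      (U2 := B.erase y₁) (p := Function.update f₁ y₁ W) (g := g) (r := r)
      (by
        rw [Finset.disjoint_left]
        intro v hv1 hv2
        rw [Finset.mem_insert] at hv1
        rw [Finset.mem_erase] at hv2
        rcases hv1 with hv1 | hv1
        · exact hv2.1 hv1
        · exact Finset.disjoint_left.1 hdisj hv1 hv2.2)
      (by
        intro v hv
        rw [Finset.mem_insert] at hv
        by_cases hvy : v = y₁
        · rw [hvy, Function.update_self]; exact hWA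
        · rw [Function.update_of_ne hvy]
          exact hf₁A v (hv.resolve_left hvy))
      (fun v hv => (Finset.mem_sdiff.1 (hgC v hv)).2) hpp hgp
    have hU : insert y₁ (ins U f A) ∪ B.erase y₁ = U := by
      rw [Finset.insert_union, ← Finset.union_insert, Finset.insert_erase hy₁, hunion]
    rw [hU] at hh3 hh4 hh5
    refine ⟨h, ?_, hh3, ?_⟩
    · intro u hu
      rw [← hU, Finset.mem_union] at hu
      rcases hu with hu | hu
      · rw [hh1 u hu]
        by_cases huy : u = y₁
        · rw [huy, Function.update_self]; exact hAC hWA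
        · rw [Function.update_of_ne huy]
          exact hAC (hf₁A u (Finset.mem_of_mem_insert_of_ne hu huy))
      · rw [hh2 u hu]
        exact (Finset.mem_sdiff.1 (hgC u hu)).1
    · intro c hc
      by_cases hcA : c ∈ A
      · rw [hh4 c hcA, card_cls_insert hy₁A, hclsA f₁ hf₁B c hcA]
        have e1 := card_cls_update (f := f') (b := X) hzU hz' c
        rw [← hf₁] at e1
        have e2 := h4 c
        have e3 := hcard c hc
        have hcj : c ≠ j := by
          rintro rfl
          exact hjA hcA
        rw [if_neg hcj] at e3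
        omega
      · rw [hh5 c hcA]
        exact hgn c (Finset.mem_sdiff.2 ⟨hc, hcA⟩)
  · -- Case 2
    obtain ⟨g, hgC, hgp, hgn⟩ := hg y₁ hy₁ hs1
    have hmem1 : z ∈ (cls U f W).filter (fun v => r y₁ v) := by
      unfold Solo at hs1
      rw [hs1]; simp
    have hry₁z : r y₁ z := (Finset.mem_filter.1 hmem1).2
    have hY : ∃ Y ∈ C \ A, Mvb r (B.erase y₁) g z Y := by
      by_contra hcon
      unfold Mvb at hcon
      push Not at hcon
      have h1 := card_le_nbrs (r := r) (U := B.erase y₁) (f := g) (x := z) (C \ A)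
        (fun c hc => hcon c hc)
      have h2 : ((B.erase y₁).filter (fun v => g v ∈ C \ A ∧ r z v)).card
          < (B.filter (fun v => r z v)).card := by
        apply Finset.card_lt_card
        rw [Finset.ssubset_iff_of_subset]
        · refine ⟨y₁, by rw [Finset.mem_filter]; exact ⟨hy₁, hsymm _ _ hry₁z⟩, ?_⟩
          rw [Finset.mem_filter]
          rintro ⟨h1, _⟩
          simp at h1
        · intro v hv
          rw [Finset.mem_filter] at hv ⊢
          exact ⟨Finset.mem_of_mem_erase hv.1, hv.2.2⟩
      omega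
    obtain ⟨Y, hYCA, hYmv⟩ := hY
    have hYC := (Finset.mem_sdiff.1 hYCA).1
    have hYA := (Finset.mem_sdiff.1 hYCA).2
    have hy₁z : y₁ ≠ z := by
      rintro rfl
      exact hzB hy₁
    have hy₁A : y₁ ∉ ins U f A := fun h => (Finset.disjoint_left.1 hdisj h) hy₁
    have hy₁A' : y₁ ∉ (ins U f A).erase z := fun h => hy₁A (Finset.mem_of_mem_erase h)
    have hzB' : z ∉ B.erase y₁ := fun h => hzB (Finset.mem_of_mem_erase h)
    have hpp : Proper r (insert y₁ ((ins U f A).erase z)) (Function.update f y₁ W) := by
      apply Proper.insert hsymm hirr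
      · intro u hu v hv
        exact hf u (mem_ins.1 (Finset.mem_of_mem_erase hu)).1 v
          (mem_ins.1 (Finset.mem_of_mem_erase hv)).1
      · intro v hv hvW hrv
        rw [Finset.mem_erase, mem_ins] at hv
        have h6 : v ∈ (cls U f W).filter (fun v => r y₁ v) := by
          rw [Finset.mem_filter, mem_cls]
          exact ⟨⟨hv.2.1, hvW⟩, hrv⟩
        unfold Solo at hs1
        rw [hs1, Finset.mem_singleton] at h6
        exact hv.1 h6
    have hgp' : Proper r (insert z (B.erase y₁)) (Function.update g z Y) :=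
      hgp.insert hsymm hirr hYmv
    have hgC' : ∀ v ∈ insert z (B.erase y₁), Function.update g z Y v ∈ C \ A := by
      intro v hv
      by_cases hvz : v = z
      · rw [hvz, Function.update_self]; exact hYCA
      · rw [Function.update_of_ne hvz]
        exact hgC v (Finset.mem_of_mem_insert_of_ne hv hvz)
    have hpA : ∀ v ∈ insert y₁ ((ins U f A).erase z), Function.update f y₁ W v ∈ A := by
      intro v hv
      by_cases hvy : v = y₁
      · rw [hvy, Function.update_self]; exact hWA
      · rw [Function.update_of_ne hvy]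
        exact (mem_ins.1 (Finset.mem_of_mem_erase
          (Finset.mem_of_mem_insert_of_ne hv hvy))).2
    obtain ⟨h, hh1, hh2, hh3, hh4, hh5⟩ := glue (A := A)
      (U1 := insert y₁ ((ins U f A).erase z))
      (U2 := insert z (B.erase y₁)) (p := Function.update f y₁ W)
      (g := Function.update g z Y) (r := r)
      (by
        rw [Finset.disjoint_left]
        intro v hv1 hv2
        rw [Finset.mem_insert, Finset.mem_erase] at hv1 hv2
        rcases hv1 with hv1 | hv1 <;> rcases hv2 with hv2 | hv2
        · exact hy₁z (hv1.symm.trans hv2)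
        · exact hv2.1 hv1
        · exact hv1.1 hv2
        · exact Finset.disjoint_left.1 hdisj hv1.2 hv2.2)
      hpA (fun v hv => (Finset.mem_sdiff.1 (hgC' v hv)).2) hpp hgp'
    have hU : insert y₁ ((ins U f A).erase z) ∪ insert z (B.erase y₁) = U := by
      refine Eq.trans ?_ hunion
      ext v
      simp only [Finset.mem_union, Finset.mem_insert, Finset.mem_erase]
      constructor
      · rintro ((h | h) | (h | h))
        · rw [h]; exact Or.inr hy₁
        · exact Or.inl h.2
        · rw [h]; exact Or.inl hzA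
        · exact Or.inr h.2
      · rintro (h | h)
        · by_cases hvz : v = z
          · exact Or.inr (Or.inl hvz)
          · exact Or.inl (Or.inr ⟨hvz, h⟩)
        · by_cases hvy : v = y₁
          · exact Or.inl (Or.inl hvy)
          · exact Or.inr (Or.inr ⟨hvy, h⟩)
    rw [hU] at hh3 hh4 hh5
    -- facts on the new colouring
    have hhC : ∀ u ∈ U, h u ∈ C := by
      intro u hu
      rw [← hU, Finset.mem_union] at hu
      rcases hu with hu | hu
      · rw [hh1 u hu]
        exact hAC (hpA u hu)
      · rw [hh2 u hu]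
        exact (Finset.mem_sdiff.1 (hgC' u hu)).1
    have hhA : ∀ v ∈ U, h v ∈ A → v ∈ insert y₁ ((ins U f A).erase z) := by
      intro v hv hvA
      rw [← hU, Finset.mem_union] at hv
      rcases hv with hv | hv
      · exact hv
      · rw [hh2 v hv] at hvA
        exact absurd hvA (Finset.mem_sdiff.1 (hgC' v hv)).2
    have hsame : ∀ v ∈ U, ∀ c ∈ A, c ≠ W → h v = c → f v = c := by
      intro v hv c hc hcW hvc
      have h1 := hhA v hv (by rw [hvc]; exact hc)
      rw [hh1 v h1] at hvc
      by_cases hvy : v = y₁
      · rw [hvy, Function.update_self] at hvc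
        exact absurd hvc.symm hcW
      · rw [Function.update_of_ne hvy] at hvc
        exact hvc
    have hkeep : ∀ v ∈ U, f v ∈ A → v ≠ z → h v = f v := by
      intro v hv hvA hvz
      have h1 : v ∈ (ins U f A).erase z := Finset.mem_erase.2 ⟨hvz, mem_ins.2 ⟨hv, hvA⟩⟩
      rw [hh1 v (Finset.mem_insert_of_mem h1), Function.update_of_ne]
      rintro rfl
      exact hy₁A' h1
    have hmvW : ∀ w ∈ U, ∀ c ∈ A, c ≠ W → Mvb r U f w c → Mvb r U h w c := by
      intro w hw c hc hcW hm v hv hvc
      exact hm v hv (hsame v hv c hc hcW hvc)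
    have hcls2 : ∀ c ∈ C, (cls U h c).card + (if c = i then 1 else 0)
        = n c + (if c = Y then 1 else 0) := by
      intro c hc
      by_cases hcA : c ∈ A
      · have hcY : c ≠ Y := by
          rintro rfl
          exact hYA hcA
        have hcj : c ≠ j := by
          rintro rfl
          exact hjA hcA
        rw [hh4 c hcA, card_cls_insert hy₁A', if_neg hcY]
        have e3 := hcard c hc
        rw [if_neg hcj] at e3
        have e4 : (cls ((ins U f A).erase z) f c).card + (if c = W then 1 else 0)
            = (cls U f c).card := by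
          rw [← hclsA f (fun _ _ => rfl) c hcA]
          by_cases hcW : c = W
          · rw [if_pos hcW]
            have h6 : cls ((ins U f A).erase z) f c = (cls (ins U f A) f c).erase z := by
              ext v
              simp only [mem_cls, Finset.mem_erase]
              tauto
            have h7 : z ∈ cls (ins U f A) f c := mem_cls.2 ⟨hzA, by rw [hzW, hcW]⟩
            rw [h6, Finset.card_erase_of_mem h7]
            have : 0 < (cls (ins U f A) f c).card := Finset.card_pos.2 ⟨z, h7⟩
            omega
          · rw [if_neg hcW]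
            have h6 : cls ((ins U f A).erase z) f c = cls (ins U f A) f c := by
              ext v
              simp only [mem_cls, Finset.mem_erase]
              constructor
              · rintro ⟨⟨_, a⟩, b⟩; exact ⟨a, b⟩
              · rintro ⟨a, b⟩
                refine ⟨⟨?_, a⟩, b⟩
                rintro rfl
                exact hcW (b.symm.trans hzW)
            rw [h6, add_zero]
        omega
      · have hci : c ≠ i := by
          rintro rfl
          exact hcA hiA
        rw [hh5 c hcA, card_cls_insert hzB', if_neg hci,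
          hgn c (Finset.mem_sdiff.2 ⟨hc, hcA⟩)]
        omega
    -- the accessible set grows
    have hreach1 : ∀ X ∈ A, X ≠ W → Rch (mv r U h) C X i := by
      intro X hX hXW
      have h1 := hterm X hX hXW
      have hstep : ∀ a b, RT (mv r U f) (A.erase W) a b → RT (mv r U h) C a b := by
        rintro a b ⟨ha, hb, w, hw, hwa, hwb⟩
        rw [Finset.mem_erase] at ha hb
        refine ⟨hAC ha.2, hAC hb.2, w, hw, ?_, hmvW w hw b hb.2 hb.1 hwb⟩
        rw [← hwa]
        apply hkeep w hw
        · rw [hwa]; exact ha.2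
        · rintro rfl
          exact ha.1 (hwa.symm.trans hzW)
      exact h1.of_imp hstep
    have hreachW : Rch (mv r U h) C W i := by
      have h1 : Rch (mv r U f) A W i := acc_reach (mem_acc.1 hWA).2
      obtain ⟨k, hk1, hk2, -⟩ := last_visit h1 hWi
      obtain ⟨-, hkA, w, hw, hwW, hwk⟩ := hk1
      have hwz : w ≠ z := by
        rintro rfl
        exact hnmv k hkA hk2 hwk
      refine Rch.head ⟨hAC hWA, hAC hkA, w, hw, ?_, hmvW w hw k hkA hk2 hwk⟩
        (hreach1 k hkA hk2)
      rw [← hwW]
      exact hkeep w hw (by rw [hwW]; exact hWA) hwz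
    have hy₂B : y₂ ∈ B.erase y₁ := Finset.mem_erase.2 ⟨Ne.symm hne, hy₂⟩
    have hy₂z : y₂ ≠ z := by
      rintro rfl
      exact hzB hy₂
    have hhy₂ : h y₂ = g y₂ := by
      rw [hh2 y₂ (Finset.mem_insert_of_mem hy₂B), Function.update_of_ne hy₂z]
    have hgy₂ := Finset.mem_sdiff.1 (hgC y₂ hy₂B)
    have hreachy : Rch (mv r U h) C (g y₂) i := by
      refine Rch.head ⟨hgy₂.1, hAC hWA, y₂, hBU hy₂, hhy₂, ?_⟩ hreachW
      intro v hv hvW hrv
      have h1 := hhA v hv (by rw [hvW]; exact hWA)
      rw [hh1 v h1] at hvW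
      by_cases hvy : v = y₁
      · rw [hvy] at hrv
        exact hr (hsymm _ _ hrv)
      · rw [Function.update_of_ne hvy] at hvW
        have h2 := Finset.mem_of_mem_insert_of_ne h1 hvy
        rw [Finset.mem_erase, mem_ins] at h2
        have h6 : v ∈ (cls U f W).filter (fun v => r y₂ v) := by
          rw [Finset.mem_filter, mem_cls]
          exact ⟨⟨h2.2.1, hvW⟩, hrv⟩
        unfold Solo at hs2
        rw [hs2, Finset.mem_singleton] at h6
        exact h2.1 h6
    have hsub : insert (g y₂) A ⊆ acc (mv r U h) C i := by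
      intro c hc
      rw [Finset.mem_insert] at hc
      rcases hc with rfl | hc
      · exact mem_acc.2 ⟨hgy₂.1, hreachy⟩
      · refine mem_acc.2 ⟨hAC hc, ?_⟩
        by_cases hcW : c = W
        · rw [hcW]; exact hreachW
        · exact hreach1 c hc hcW
    have hcard2 : A.card + 1 ≤ (acc (mv r U h) C i).card := by
      have := Finset.card_le_card hsub
      rwa [Finset.card_insert_of_notMem hgy₂.2] at this
    have hle : (acc (mv r U h) C i).card ≤ C.card :=
      Finset.card_le_card (Finset.filter_subset _ _)
    exact ihN (C.card - (acc (mv r U h) C i).card) (by omega) h i Y hi hYC hhC hh3 hcls2 rfl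

/-- A function with prescribed fibre sizes. -/
theorem exists_fibres [Nonempty ι] (n : ι → ℕ) : ∀ (C : Finset ι) (U : Finset V),
    ∑ c ∈ C, n c = U.card → ∃ f : V → ι, (∀ u ∈ U, f u ∈ C) ∧ ∀ c ∈ C, (cls U f c).card = n c := by
  intro C
  induction C using Finset.induction_on with
  | empty =>
    intro U hU
    rw [Finset.sum_empty] at hU
    have : U = ∅ := Finset.card_eq_zero.1 hU.symm
    subst this
    exact ⟨fun _ => Classical.arbitrary ι, by simp, by simp⟩
  | @insert c C hc ih =>
    intro U hU
    rw [Finset.sum_insert hc] at hU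
    obtain ⟨T, hTU, hT⟩ := Finset.exists_subset_card_eq (s := U) (n := n c) (by omega)
    obtain ⟨f, hf1, hf2⟩ := ih (U \ T) (by rw [Finset.card_sdiff_of_subset hTU]; omega)
    refine ⟨fun v => if v ∈ T then c else f v, ?_, ?_⟩
    · intro u hu
      by_cases huT : u ∈ T
      · simp [huT]
      · simp only [huT, if_false]
        exact Finset.mem_insert_of_mem (hf1 u (Finset.mem_sdiff.2 ⟨hu, huT⟩))
    · intro d hd
      rw [Finset.mem_insert] at hd
      by_cases hdc : d = c
      · subst hdc
        rw [← hT]
        congr 1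
        ext v
        rw [mem_cls]
        constructor
        · rintro ⟨h1, h2⟩
          by_contra h3
          simp only [h3, if_false] at h2
          exact hc (h2 ▸ hf1 v (Finset.mem_sdiff.2 ⟨h1, h3⟩))
        · intro h
          exact ⟨hTU h, by simp [h]⟩
      · rw [← hf2 d (hd.resolve_left hdc)]
        congr 1
        ext v
        rw [mem_cls, mem_cls, Finset.mem_sdiff]
        constructor
        · rintro ⟨h1, h2⟩
          by_cases h3 : v ∈ T
          · simp only [h3, if_true] at h2
            exact absurd h2.symm hdc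
          · simp only [h3, if_false] at h2
            exact ⟨⟨h1, h3⟩, h2⟩
        · rintro ⟨⟨h1, h3⟩, h2⟩
          simp only [h3, if_false]
          exact ⟨h1, h2⟩

/-- The general theorem, for a symmetric irreflexive relation on a finite set. -/
theorem main [Nonempty ι] (n : ι → ℕ) (s : ℕ) : ∀ (N : ℕ) (r : V → V → Prop),
    (∀ x y, r x y → r y x) → (∀ x, ¬ r x x) → ∀ (U : Finset V) (C : Finset ι) (D : ℕ),
    E r U = N → Hyp r U C n D s → Good r U C n := by
  intro N
  induction N using Nat.strong_induction_on with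
  | _ N ihN =>
  intro r hsymm hirr U C D hE hyp
  by_cases hedge : ∃ u ∈ U, ∃ v ∈ U, r u v
  · obtain ⟨u, hu, v, hv, huv⟩ := hedge
    obtain ⟨r', hr'⟩ : ∃ r' : V → V → Prop, ∀ x y, r' x y ↔ (r x y ∧ x ≠ u ∧ y ≠ u) :=
      ⟨_, fun _ _ => Iff.rfl⟩
    have hElt : E r' U < N := by
      rw [← hE]
      unfold E
      apply Finset.card_lt_card
      rw [Finset.ssubset_iff_of_subset]
      · refine ⟨(u, v), ?_, ?_⟩
        · rw [Finset.mem_filter, Finset.mem_product]
          exact ⟨⟨hu, hv⟩, huv⟩
        · intro h2
          exact ((hr' _ _).1 (Finset.mem_filter.1 h2).2).2.1 rfl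
      · intro q hq
        have hq' := Finset.mem_filter.1 hq
        exact Finset.mem_filter.2 ⟨hq'.1, ((hr' _ _).1 hq'.2).1⟩
    have hyp' : Hyp r' U C n D s := by
      refine ⟨?_, hyp.2.1, hyp.2.2.1, hyp.2.2.2⟩
      intro x hx
      refine le_trans (Finset.card_le_card ?_) (hyp.1 x hx)
      intro y hy
      have hy' := Finset.mem_filter.1 hy
      exact Finset.mem_filter.2 ⟨hy'.1, ((hr' _ _).1 hy'.2).1⟩
    obtain ⟨f', hf'C, hf'p, hf'n⟩ := ihN (E r' U) hElt r'
      (fun x y h => (hr' _ _).2 ⟨hsymm _ _ ((hr' _ _).1 h).1, ((hr' _ _).1 h).2.2,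
        ((hr' _ _).1 h).2.1⟩) (fun x h => hirr x ((hr' _ _).1 h).1) U C D rfl hyp'
    have hCcard := hyp.card_le ⟨u, hu⟩
    have hY : ∃ Y ∈ C, Mvb r U f' u Y := by
      by_contra hcon
      unfold Mvb at hcon
      push Not at hcon
      have h1 := card_le_nbrs (r := r) (U := U) (f := f') (x := u) C (fun c hc => hcon c hc)
      have h2 : (U.filter (fun v => f' v ∈ C ∧ r u v)).card
          ≤ (U.filter (fun v => r u v)).card := by
        apply Finset.card_le_card
        intro v hv
        rw [Finset.mem_filter] at hv ⊢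
        exact ⟨hv.1, hv.2.2⟩
      have h3 := hyp.1 u hu
      omega
    obtain ⟨Y, hYC, hYm⟩ := hY
    have hp : Proper r U (Function.update f' u Y) := by
      intro x hx y hy hxy
      by_cases h1 : x = u
      · subst h1
        have h2 : y ≠ x := by
          rintro rfl
          exact hirr _ hxy
        rw [Function.update_self, Function.update_of_ne h2]
        intro h
        exact hYm y hy h.symm hxy
      · by_cases h2 : y = u
        · subst h2
          rw [Function.update_self, Function.update_of_ne h1]
          intro h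
          exact hYm x hx h (hsymm _ _ hxy)
        · rw [Function.update_of_ne h1, Function.update_of_ne h2]
          exact hf'p x hx y hy ((hr' _ _).2 ⟨hxy, h1, h2⟩)
    refine nearly_good hsymm hirr hyp ?_ _ (Function.update f' u Y) (f' u) Y (hf'C u hu) hYC ?_
      hp ?_ rfl
    · intro U' C' D' hlt hyp''
      exact ihN (E r U') (by omega) r hsymm hirr U' C' D' rfl hyp''
    · intro x hx
      by_cases h1 : x = u
      · rw [h1, Function.update_self]; exact hYC
      · rw [Function.update_of_ne h1]; exact hf'C x hx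
    · intro c hc
      rw [card_cls_update hu rfl, hf'n c hc]
  · push Not at hedge
    obtain ⟨f, hf1, hf2⟩ := exists_fibres n C U hyp.2.2.1
    exact ⟨f, hf1, fun u hu v hv huv => absurd huv (hedge u hu v hv), hf2⟩

end Pool.Agent.Lib_helper87.HS
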