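import Pool.Agent.Lib_helper87.HS.Digraph

/-!
Colourings of a finite vertex set, colour classes, and the shift along a walk of the
auxiliary digraph.
-/

open Classical Relation

namespace Pool.Agent.Lib_helper87.HS

variable {V ι : Type*}

/-- The colour class of `c`. -/
noncomputable def cls (U : Finset V) (f : V → ι) (c : ι) : Finset V :=
  U.filter (fun v => f v = c)

theorem mem_cls {U : Finset V} {f : V → ι} {c : ι} {v : V} :
    v ∈ cls U f c ↔ v ∈ U ∧ f v = c := by
  simp [cls]

/-- Properness of a colouring on the vertex set `U`. -/
def Proper (r : V → V → Prop) (U : Finset V) (f : V → ι) : Prop :=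
  ∀ u ∈ U, ∀ v ∈ U, r u v → f u ≠ f v

/-- The vertex `w` has no neighbour of colour `c`. -/
def Mvb (r : V → V → Prop) (U : Finset V) (f : V → ι) (w : V) (c : ι) : Prop :=
  ∀ v ∈ U, f v = c → ¬ r w v

/-- The auxiliary digraph on colours: some vertex of colour `a` has no neighbour of colour `b`. -/
def mv (r : V → V → Prop) (U : Finset V) (f : V → ι) (a b : ι) : Prop :=
  ∃ w ∈ U, f w = a ∧ Mvb r U f w b

theorem card_cls_update {U : Finset V} {f : V → ι} {w : V} (hw : w ∈ U) {a b : ι}
    (ha : f w = a) (c : ι) :
    (cls U (Function.update f w b) c).card + (if c = a then 1 else 0)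
      = (cls U f c).card + (if c = b then 1 else 0) := by
  by_cases hcb : c = b
  · subst hcb
    have h1 : cls U (Function.update f w c) c = insert w (cls U f c) := by
      ext v
      simp only [mem_cls, Finset.mem_insert]
      by_cases hv : v = w
      · subst hv; simp [hw]
      · simp [hv]
    rw [h1]
    by_cases hca : c = a
    · have : w ∈ cls U f c := mem_cls.2 ⟨hw, by rw [ha, hca]⟩
      rw [Finset.insert_eq_of_mem this]
      simp [hca]
    · have : w ∉ cls U f c := by
        rw [mem_cls]
        rintro ⟨_, h⟩
        exact hca (by rw [← h, ha])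
      rw [Finset.card_insert_of_notMem this]
      simp [hca]
  · have h1 : cls U (Function.update f w b) c = (cls U f c).erase w := by
      ext v
      simp only [mem_cls, Finset.mem_erase]
      by_cases hv : v = w
      · subst hv; simp [Ne.symm hcb]
      · simp [hv]
    rw [h1]
    by_cases hca : c = a
    · have : w ∈ cls U f c := mem_cls.2 ⟨hw, by rw [ha, hca]⟩
      have hpos : 0 < (cls U f c).card := Finset.card_pos.2 ⟨w, this⟩
      rw [Finset.card_erase_of_mem this]
      simp [hca]
      subst hca
      simp [hcb]
      omega
    · have : w ∉ cls U f c := by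
        rw [mem_cls]
        rintro ⟨_, h⟩
        exact hca (by rw [← h, ha])
      rw [Finset.erase_eq_of_notMem this]
      simp [hca, hcb]

theorem Proper.update {r : V → V → Prop} (hsymm : ∀ x y, r x y → r y x)
    (hirr : ∀ x, ¬ r x x) {U : Finset V} {f : V → ι} (hf : Proper r U f) {w : V} {b : ι}
    (hb : Mvb r U f w b) : Proper r U (Function.update f w b) := by
  intro u hu v hv huv
  by_cases h1 : u = w
  · subst h1
    have h2 : v ≠ u := by
      rintro rfl
      exact hirr _ huv
    rw [Function.update_self, Function.update_of_ne h2]
    intro h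
    exact hb v hv h.symm huv
  · by_cases h2 : v = w
    · subst h2
      rw [Function.update_self, Function.update_of_ne h1]
      intro h
      exact hb u hu h (hsymm _ _ huv)
    · rw [Function.update_of_ne h1, Function.update_of_ne h2]
      exact hf u hu v hv huv

/-- Shifting witnesses along a walk from `i` to `j` inside `T`. -/
theorem shift {r : V → V → Prop} (hsymm : ∀ x y, r x y → r y x)
    (hirr : ∀ x, ¬ r x x) {U : Finset V} {f : V → ι} (hf : Proper r U f) :
    ∀ (N : ℕ) (T : Finset ι), T.card = N → ∀ i j, i ∈ T → j ∈ T → Rch (mv r U f) T i j →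
      ∃ f' : V → ι, Proper r U f' ∧ (∀ v, f v ∉ T → f' v = f v) ∧ (∀ v, f v ∈ T → f' v ∈ T) ∧
        (∀ v, f' v = i → f v = i) ∧
        ∀ c, (cls U f' c).card + (if c = i then 1 else 0)
          = (cls U f c).card + (if c = j then 1 else 0) := by
  intro N
  induction N with
  | zero =>
    intro T hT i j hi hj _
    rw [Finset.card_eq_zero] at hT
    subst hT
    simp at hi
  | succ N ih =>
    intro T hT i j hi hj h
    by_cases hij : i = j
    · subst hij
      exact ⟨f, hf, fun v _ => rfl, fun v hv => hv, fun v hv => hv, fun c => rfl⟩
    · obtain ⟨k, hk1, hk2, hk3⟩ := last_visit h hij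
      have hk : k ∈ T.erase i := Finset.mem_erase.2 ⟨hk2, hk1.2.1⟩
      have hj' : j ∈ T.erase i := Finset.mem_erase.2 ⟨Ne.symm hij, hj⟩
      obtain ⟨f', hf', h1, h2, h3, h4⟩ := ih (T.erase i)
        (by rw [Finset.card_erase_of_mem hi, hT]; rfl) k j hk hj' hk3
      obtain ⟨w, hwU, hwi, hwk⟩ := hk1.2.2
      have hw' : f' w = i := by
        rw [h1 w (by rw [hwi]; simp)]
        exact hwi
      have hb : Mvb r U f' w k := by
        intro v hv hvk
        exact hwk v hv (h3 v hvk)
      refine ⟨Function.update f' w k, hf'.update hsymm hirr hb, ?_, ?_, ?_, ?_⟩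
      · intro v hv
        have hvw : v ≠ w := by
          rintro rfl
          exact hv (by rw [hwi]; exact hi)
        rw [Function.update_of_ne hvw]
        exact h1 v (fun h => hv (Finset.mem_of_mem_erase h))
      · intro v hv
        by_cases hvw : v = w
        · subst hvw
          rw [Function.update_self]
          exact hk1.2.1
        · rw [Function.update_of_ne hvw]
          by_cases hvi : f v = i
          · rw [h1 v (by rw [hvi]; simp), hvi]
            exact hi
          · exact Finset.mem_of_mem_erase (h2 v (Finset.mem_erase.2 ⟨hvi, hv⟩))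
      · intro v hv
        by_cases hvw : v = w
        · subst hvw
          exact hwi
        · rw [Function.update_of_ne hvw] at hv
          by_contra hvi
          by_cases hvT : f v ∈ T
          · have := h2 v (Finset.mem_erase.2 ⟨hvi, hvT⟩)
            rw [hv] at this
            simp at this
          · rw [h1 v (fun h => hvT (Finset.mem_of_mem_erase h))] at hv
            exact hvi hv
      · intro c
        have e1 := card_cls_update (f := f') (b := k) hwU hw' c
        have e2 := h4 c
        omega

end Pool.Agent.Lib_helper87.HS
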