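import Pool.Agent.Lib_helper87.HS.Count

/-!
The structural part of the Kierstead-Kostochka argument: if the class with one vertex too many is
not accessible, there is a solo vertex that can be moved, or one with two nonadjacent solo
neighbours.
-/

open Classical Relation

namespace Pool.Agent.Lib_helper87.HS

variable {V ι : Type*}

/-- The vertices whose colour is not in `A`. -/
noncomputable def outs (U : Finset V) (f : V → ι) (A : Finset ι) : Finset V :=
  U.filter (fun v => f v ∉ A)

/-- The vertices whose colour is in `A`. -/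
noncomputable def ins (U : Finset V) (f : V → ι) (A : Finset ι) : Finset V :=
  U.filter (fun v => f v ∈ A)

theorem mem_outs {U : Finset V} {f : V → ι} {A : Finset ι} {v : V} :
    v ∈ outs U f A ↔ v ∈ U ∧ f v ∉ A := by simp [outs]

theorem mem_ins {U : Finset V} {f : V → ι} {A : Finset ι} {v : V} :
    v ∈ ins U f A ↔ v ∈ U ∧ f v ∈ A := by simp [ins]

theorem card_ins_add_outs (U : Finset V) (f : V → ι) (A : Finset ι) :
    (ins U f A).card + (outs U f A).card = U.card := by
  unfold ins outs
  exact Finset.card_filter_add_card_filter_not _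

theorem nbr_split (r : V → V → Prop) (U : Finset V) (f : V → ι) (A : Finset ι) (x : V) :
    (U.filter (fun v => f v ∈ A ∧ r x v)).card + ((outs U f A).filter (fun v => r x v)).card
      = (U.filter (fun v => r x v)).card := by
  rw [← Finset.card_filter_add_card_filter_not (s := U.filter (fun v => r x v))
    (fun v => f v ∈ A)]
  congr 2
  · ext v
    simp only [Finset.mem_filter]
    tauto
  · ext v
    simp only [Finset.mem_filter, mem_outs]
    tauto

theorem card_nbr_colours {r : V → V → Prop} {U : Finset V} {f : V → ι} {x : V} (P : Finset ι) :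
    (U.filter (fun v => f v ∈ P ∧ r x v)).card
      = ∑ c ∈ P, ((cls U f c).filter (fun v => r x v)).card := by
  rw [Finset.card_eq_sum_card_fiberwise (f := f) (t := P)]
  · apply Finset.sum_congr rfl
    intro c hc
    congr 1
    ext v
    simp only [Finset.mem_filter, mem_cls]
    constructor
    · rintro ⟨⟨h1, _, h4⟩, h3⟩; exact ⟨⟨h1, h3⟩, h4⟩
    · rintro ⟨⟨h1, h3⟩, h4⟩; exact ⟨⟨h1, by rw [h3]; exact hc, h4⟩, h3⟩
  · intro v hv
    simp only [Finset.coe_filter, Set.mem_ofPred_eq] at hv
    exact hv.2.1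

/-- `z` is the only neighbour of `y` in the class of colour `W`. -/
def Solo (r : V → V → Prop) (U : Finset V) (f : V → ι) (W : ι) (z y : V) : Prop :=
  (cls U f W).filter (fun v => r y v) = {z}

theorem stuck {r : V → V → Prop} (hsymm : ∀ x y, r x y → r y x)
    {U : Finset V} {C : Finset ι} {D s : ℕ} {n : ι → ℕ} {f : V → ι} {i j : ι}
    (hdeg : ∀ u ∈ U, (U.filter (fun v => r u v)).card ≤ D)
    (hn : ∀ c ∈ C, n c ≤ s)
    (hDs : (D + 1) * s ≤ U.card)
    (hi : i ∈ C) (hj : j ∈ C) (hfC : ∀ u ∈ U, f u ∈ C)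
    (hcard : ∀ c ∈ C, (cls U f c).card + (if c = i then 1 else 0)
      = n c + (if c = j then 1 else 0))
    (hjA : j ∉ acc (mv r U f) C i) :
    ∃ β : ℕ, (acc (mv r U f) C i).card + β = D + 1 ∧ 1 ≤ β ∧
      (∀ y ∈ outs U f (acc (mv r U f) C i),
        ((outs U f (acc (mv r U f) C i)).filter (fun v => r y v)).card + 1 ≤ β) ∧
      β * s + 1 ≤ (outs U f (acc (mv r U f) C i)).card ∧
      ∃ W ∈ acc (mv r U f) C i, W ≠ i ∧
        (∀ X ∈ acc (mv r U f) C i, X ≠ W →
          Rch (mv r U f) ((acc (mv r U f) C i).erase W) X i) ∧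
        ∃ z ∈ U, f z = W ∧
          ((∃ X ∈ acc (mv r U f) C i, X ≠ W ∧ Mvb r U f z X ∧
              ∃ y₁ ∈ outs U f (acc (mv r U f) C i), Solo r U f W z y₁) ∨
            ((∀ X ∈ acc (mv r U f) C i, X ≠ W → ¬ Mvb r U f z X) ∧
              ((outs U f (acc (mv r U f) C i)).filter (fun v => r z v)).card ≤ β ∧
              ∃ y₁ ∈ outs U f (acc (mv r U f) C i), ∃ y₂ ∈ outs U f (acc (mv r U f) C i),
                y₁ ≠ y₂ ∧ ¬ r y₁ y₂ ∧ Solo r U f W z y₁ ∧ Solo r U f W z y₂)) := by
  set A := acc (mv r U f) C i with hA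
  set B := outs U f A with hB
  have hAC : A ⊆ C := Finset.filter_subset _ _
  have hiA : i ∈ A := mem_acc.2 ⟨hi, Rch.refl⟩
  have hij : j ≠ i := by
    rintro rfl
    exact hjA hiA
  have hAreach : ∀ c ∈ A, Rch (mv r U f) A c i := fun c hc => acc_reach (mem_acc.1 hc).2
  have hnbA : ∀ y ∈ B, ∀ c ∈ A, ∃ v ∈ U, f v = c ∧ r y v := by
    intro y hy c hc
    by_contra hcon
    push Not at hcon
    have hy' := mem_outs.1 hy
    apply hy'.2
    refine mem_acc.2 ⟨hfC y hy'.1, Rch.head ⟨hfC y hy'.1, hAC hc, y, hy'.1, rfl, ?_⟩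
      (mem_acc.1 hc).2⟩
    intro v hv hvc
    exact hcon v hv hvc
  have hsplit : ∀ x, (U.filter (fun v => f v ∈ A ∧ r x v)).card
      + (B.filter (fun v => r x v)).card = (U.filter (fun v => r x v)).card :=
    fun x => nbr_split r U f A x
  have hdB : ∀ y ∈ B, (B.filter (fun v => r y v)).card + A.card ≤ D := by
    intro y hy
    have h1 := card_le_nbrs A (hnbA y hy)
    have h2 := hsplit y
    have h3 := hdeg y (mem_outs.1 hy).1
    omega
  have hclsj := hcard j hj
  rw [if_neg hij, if_pos rfl] at hclsj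
  have hBne : B.Nonempty := by
    have : 0 < (cls U f j).card := by omega
    obtain ⟨v, hv⟩ := Finset.card_pos.1 this
    rw [mem_cls] at hv
    exact ⟨v, mem_outs.2 ⟨hv.1, by rw [hv.2]; exact hjA⟩⟩
  obtain ⟨y0, hy0⟩ := hBne
  have haD : A.card ≤ D := by
    have := hdB y0 hy0
    omega
  obtain ⟨β, hβ⟩ : ∃ β, A.card + β = D + 1 := ⟨D + 1 - A.card, by omega⟩
  have hinsA : (ins U f A).card + 1 = ∑ c ∈ A, n c := by
    unfold ins
    rw [card_colours]
    have h1 : ∑ c ∈ A, ((cls U f c).card + (if c = i then 1 else 0))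
        = ∑ c ∈ A, (n c + (if c = j then 1 else 0)) :=
      Finset.sum_congr rfl (fun c hc => hcard c (hAC hc))
    rw [Finset.sum_add_distrib, Finset.sum_add_distrib, Finset.sum_ite_eq', Finset.sum_ite_eq',
      if_pos hiA, if_neg hjA] at h1
    omega
  have hsumA : ∑ c ∈ A, n c ≤ A.card * s := by
    have := Finset.sum_le_card_nsmul A n s (fun c hc => hn c (hAC hc))
    simpa using this
  have hUsplit := card_ins_add_outs U f A
  rw [← hB] at hUsplit
  have hDs' : A.card * s + β * s ≤ U.card := by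
    rw [← add_mul, hβ]; exact hDs
  have hBcard : β * s + 1 ≤ B.card := by omega
  have ha2 : 2 ≤ A.card := by
    by_contra hcon
    have hpos : 0 < A.card := Finset.card_pos.2 ⟨i, hiA⟩
    have ha1 : A.card = 1 := by omega
    have hAi : A = {i} := by
      obtain ⟨x, hx⟩ := Finset.card_eq_one.1 ha1
      rw [hx] at hiA ⊢
      rw [Finset.mem_singleton] at hiA
      rw [hiA]
    have hsub : B ⊆ (ins U f A).biUnion (fun v => U.filter (fun x => r v x)) := by
      intro y hy
      obtain ⟨v, hv, hvc, hyv⟩ := hnbA y hy i hiA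
      rw [Finset.mem_biUnion]
      refine ⟨v, mem_ins.2 ⟨hv, by rw [hvc]; exact hiA⟩, ?_⟩
      rw [Finset.mem_filter]
      exact ⟨(mem_outs.1 hy).1, hsymm _ _ hyv⟩
    have h1 : B.card ≤ (ins U f A).card * D :=
      (Finset.card_le_card hsub).trans
        (Finset.card_biUnion_le_card_mul _ _ _ (fun v hv => hdeg v (mem_ins.1 hv).1))
    rw [ha1] at hsumA hβ
    have hβD : β = D := by omega
    subst hβD
    have h2 : (ins U f A).card ≤ s := by omega
    have h3 := Nat.mul_le_mul_right β h2
    nlinarith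
  obtain ⟨u, hu, A', hA'sub, hA'ne, hiA', hterm, hnomove⟩ :=
    exists_terminal (mv r U f) A i hiA hAreach ha2
  set t := A'.card with ht
  have ht1 : 1 ≤ t := Finset.card_pos.2 hA'ne
  have hA'A : A' ⊆ A := hA'sub.trans (Finset.erase_subset _ _)
  have huA' : u ∉ A' := by
    intro h
    have := hA'sub h
    simp at this
  have hclsW : ∀ W ∈ A', (cls U f W).card ≤ s := by
    intro W hW
    have h1 := hcard W (hAC (hA'A hW))
    have h2 : W ≠ i := by
      rintro rfl
      exact hiA' hW
    have h3 : W ≠ j := by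
      rintro rfl
      exact hjA (hA'A hW)
    rw [if_neg h2, if_neg h3] at h1
    have := hn W (hAC (hA'A hW))
    omega
  have hdA' : ∀ x ∈ U, f x ∈ A' → (B.filter (fun v => r x v)).card ≤ β + t := by
    intro x hx hxA'
    have hP : ∀ c ∈ (A \ A').erase u, ∃ v ∈ U, f v = c ∧ r x v := by
      intro c hc
      rw [Finset.mem_erase, Finset.mem_sdiff] at hc
      by_contra hcon
      push Not at hcon
      exact hnomove (f x) hxA' c hc.2.1 hc.2.2 hc.1 ⟨x, hx, rfl, hcon⟩
    have h1 := card_le_nbrs _ hP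
    have h2 : (U.filter (fun v => f v ∈ (A \ A').erase u ∧ r x v)).card
        ≤ (U.filter (fun v => f v ∈ A ∧ r x v)).card := by
      apply Finset.card_le_card
      intro v hv
      simp only [Finset.mem_filter, Finset.mem_erase, Finset.mem_sdiff] at hv ⊢
      exact ⟨hv.1, hv.2.1.2.1, hv.2.2⟩
    have h3 : ((A \ A').erase u).card + 1 + t = A.card := by
      rw [Finset.card_erase_of_mem (by rw [Finset.mem_sdiff]; exact ⟨hu, huA'⟩),
        Finset.card_sdiff_of_subset hA'A]
      have h4 : A'.card ≤ (A.erase u).card := Finset.card_le_card hA'sub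
      rw [Finset.card_erase_of_mem hu] at h4
      omega
    have h4 := hsplit x
    have h5 := hdeg x hx
    omega
  refine ⟨β, hβ, by omega, fun y hy => by have := hdB y hy; omega, hBcard, ?_⟩
  by_contra hcon
  -- no solo vertex of a class in `A'` is movable
  have hH1 : ∀ W ∈ A', ∀ z ∈ U, f z = W → ∀ y₁ ∈ B, Solo r U f W z y₁ →
      ∀ X ∈ A, X ≠ W → ¬ Mvb r U f z X := by
    intro W hW z hz hzW y₁ hy₁ hsolo X hX hXW hm
    apply hcon
    refine ⟨W, hA'A hW, ?_, hterm W hW, z, hz, hzW, Or.inl ⟨X, hX, hXW, hm, y₁, hy₁, hsolo⟩⟩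
    rintro rfl
    exact hiA' hW
  have hH1' : ∀ W ∈ A', ∀ z ∈ U, f z = W → ∀ y₁ ∈ B, Solo r U f W z y₁ →
      (B.filter (fun v => r z v)).card ≤ β := by
    intro W hW z hz hzW y₁ hy₁ hsolo
    have hP : ∀ c ∈ A.erase W, ∃ v ∈ U, f v = c ∧ r z v := by
      intro c hc
      rw [Finset.mem_erase] at hc
      have := hH1 W hW z hz hzW y₁ hy₁ hsolo c hc.2 hc.1
      unfold Mvb at this
      push Not at this
      exact this
    have h1 := card_le_nbrs _ hP
    have h2 : (U.filter (fun v => f v ∈ A.erase W ∧ r z v)).card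
        ≤ (U.filter (fun v => f v ∈ A ∧ r z v)).card := by
      apply Finset.card_le_card
      intro v hv
      simp only [Finset.mem_filter, Finset.mem_erase] at hv ⊢
      exact ⟨hv.1, hv.2.1.2, hv.2.2⟩
    rw [Finset.card_erase_of_mem (hA'A hW)] at h1
    have h4 := hsplit z
    have h5 := hdeg z hz
    omega
  have hH2 : ∀ W ∈ A', ∀ z ∈ U, f z = W → ∀ y₁ ∈ B, ∀ y₂ ∈ B, y₁ ≠ y₂ →
      Solo r U f W z y₁ → Solo r U f W z y₂ → r y₁ y₂ := by
    intro W hW z hz hzW y₁ hy₁ y₂ hy₂ hne hs1 hs2
    by_contra hr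
    apply hcon
    refine ⟨W, hA'A hW, ?_, hterm W hW, z, hz, hzW, Or.inr
      ⟨hH1 W hW z hz hzW y₁ hy₁ hs1, hH1' W hW z hz hzW y₁ hy₁ hs1,
        y₁, hy₁, y₂, hy₂, hne, hr, hs1, hs2⟩⟩
    rintro rfl
    exact hiA' hW
  -- first count
  have htβ : β + 1 ≤ t := by
    obtain ⟨W, hW⟩ := hA'ne
    apply count22 hsymm B (cls U f W) s β t hBcard (hclsW W hW)
    · intro y hy
      obtain ⟨v, hv, hvW, hyv⟩ := hnbA y hy W (hA'A hW)
      exact ⟨v, mem_cls.2 ⟨hv, hvW⟩, hyv⟩
    · rintro z hz ⟨y, hy, hsolo⟩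
      rw [mem_cls] at hz
      exact hH1' W hW z hz.1 hz.2 y hy hsolo
    · intro z hz
      rw [mem_cls] at hz
      exact hdA' z hz.1 (by rw [hz.2]; exact hW)
  -- second count
  refine count24 B (ins U f A') (fun z y => Solo r U f (f z) z y)
    (fun y => (B.filter (fun v => r y v)).card + 1) s β t (by omega) ht1 hBcard ?_ ?_ ?_ ?_
  · unfold ins
    rw [card_colours]
    have := Finset.sum_le_card_nsmul A' (fun c => (cls U f c).card) s hclsW
    simpa using this
  · intro y hy
    have := hdB y hy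
    constructor <;> omega
  · intro y hy
    -- the number of neighbours in `A`-classes plus the number of solo classes
    obtain ⟨k, hk⟩ : ∃ k : ι → ℕ, ∀ c, k c = ((cls U f c).filter (fun v => r y v)).card :=
      ⟨_, fun _ => rfl⟩
    have h1 : (U.filter (fun v => f v ∈ A ∧ r y v)).card = ∑ c ∈ A, k c := by
      rw [card_nbr_colours A]
      exact Finset.sum_congr rfl (fun c _ => (hk c).symm)
    have hk1 : ∀ c ∈ A, 1 ≤ k c := by
      intro c hc
      obtain ⟨v, hv, hvc, hyv⟩ := hnbA y hy c hc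
      rw [hk c]
      apply Finset.card_pos.2
      exact ⟨v, by rw [Finset.mem_filter, mem_cls]; exact ⟨⟨hv, hvc⟩, hyv⟩⟩
    have h2 : A.card + (A'.filter (fun c => ¬ k c = 1)).card ≤ ∑ c ∈ A, k c := by
      have h3 : (A'.filter (fun c => ¬ k c = 1)).card
          = ∑ c ∈ A, (if c ∈ A' ∧ ¬ k c = 1 then 1 else 0) := by
        rw [← Finset.card_filter]
        congr 1
        ext c
        simp only [Finset.mem_filter]
        constructor
        · rintro ⟨a, b⟩; exact ⟨hA'A a, a, b⟩
        · rintro ⟨_, a, b⟩; exact ⟨a, b⟩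
      rw [h3, Finset.card_eq_sum_ones, ← Finset.sum_add_distrib]
      apply Finset.sum_le_sum
      intro c hc
      have := hk1 c hc
      split_ifs with h4
      · have := h4.2
        omega
      · omega
    have h3 : (A'.filter (fun c => k c = 1)).card
        ≤ ((ins U f A').filter (fun z => Solo r U f (f z) z y)).card := by
      apply Finset.card_le_card_of_surjOn f
      intro c hc
      simp only [Finset.coe_filter, Set.mem_ofPred_eq] at hc
      obtain ⟨z, hz⟩ := Finset.card_eq_one.1 ((hk c).symm.trans hc.2)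
      have hz' : z ∈ (cls U f c).filter (fun v => r y v) := by rw [hz]; simp
      rw [Finset.mem_filter, mem_cls] at hz'
      refine ⟨z, ?_, hz'.1.2⟩
      simp only [Finset.coe_filter, Set.mem_ofPred_eq]
      refine ⟨mem_ins.2 ⟨hz'.1.1, by rw [hz'.1.2]; exact hc.1⟩, ?_⟩
      unfold Solo
      rw [hz'.1.2]
      exact hz
    have h4 : (A'.filter (fun c => k c = 1)).card + (A'.filter (fun c => ¬ k c = 1)).card = t :=
      Finset.card_filter_add_card_filter_not _
    have h5 := hsplit y
    have h6 := hdeg y (mem_outs.1 hy).1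
    omega
  · intro y hy z hz hsolo
    have hz' := mem_ins.1 hz
    have hsub : B.filter (fun y => Solo r U f (f z) z y) ⊆
        insert y (B.filter (fun v => r y v)) := by
      intro x hx
      rw [Finset.mem_filter] at hx
      rw [Finset.mem_insert]
      by_cases hxy : x = y
      · exact Or.inl hxy
      · refine Or.inr ?_
        rw [Finset.mem_filter]
        exact ⟨hx.1, hH2 (f z) hz'.2 z hz'.1 rfl y hy x hx.1 (Ne.symm hxy) hsolo hx.2⟩
    exact (Finset.card_le_card hsub).trans (Finset.card_insert_le _ _)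

end Pool.Agent.Lib_helper87.HS
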